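import Mathlib

-- merged part: Pool.Agent.Work.MP_a8adbc_co.Generic
section
set_option autoImplicit false

namespace Pool.Agent.Work.MP_a8adbc_co

open Finset Filter Topology

/-- Generic weights: if every bad set is separated by some feasible weighting, a single positive
weighting separates all of them. -/
theorem generic {V : Type} [Fintype V] (M : Finset V → Prop) (φ0 : V → ℝ)
    (h0 : ∀ v, 0 < φ0 v) (h1 : ∀ S, M S → ∑ v ∈ S, φ0 v = 1)
    (h2 : ∀ T, ¬ M T → ∃ ψ : V → ℝ, (∀ S, M S → ∑ v ∈ S, ψ v = 1) ∧ ∑ v ∈ T, ψ v ≠ 1) :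
    ∃ φ : V → ℝ, (∀ v, 0 < φ v) ∧ ∀ S, (M S ↔ ∑ v ∈ S, φ v = 1) := by
  classical
  have key : ∀ B : Finset (Finset V), ∃ φ : V → ℝ, (∀ v, 0 < φ v) ∧
      (∀ S, M S → ∑ v ∈ S, φ v = 1) ∧ ∀ T ∈ B, ¬ M T → ∑ v ∈ T, φ v ≠ 1 := by
    intro B
    induction B using Finset.induction_on with
    | empty => exact ⟨φ0, h0, h1, by simp⟩
    | insert T B hTB ih =>
      obtain ⟨φ, hp, hf, hB⟩ := ih
      by_cases hT : ¬ M T ∧ ∑ v ∈ T, φ v = 1
      · obtain ⟨hMT, hT1⟩ := hT
        obtain ⟨ψ, hψ, hψT⟩ := h2 T hMT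
        have e1 : ∀ᶠ ε : ℝ in 𝓝 0, ∀ v, 0 < φ v + ε * (ψ v - φ v) := by
          rw [Filter.eventually_all]
          intro v
          have hc : Continuous (fun ε : ℝ => φ v + ε * (ψ v - φ v)) := by fun_prop
          exact hc.continuousAt.eventually (lt_mem_nhds (by simpa using hp v))
        have e2 : ∀ᶠ ε : ℝ in 𝓝 0, ∀ T' ∈ B, ¬ M T' →
            ∑ v ∈ T', (φ v + ε * (ψ v - φ v)) ≠ 1 := by
          rw [Filter.eventually_all_finset]
          intro T' hT'
          by_cases hM : M T'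
          · exact Filter.Eventually.of_forall (fun _ h => absurd hM h)
          · have hc : Continuous (fun ε : ℝ => ∑ v ∈ T', (φ v + ε * (ψ v - φ v))) := by fun_prop
            have : ∀ᶠ ε : ℝ in 𝓝 0, ∑ v ∈ T', (φ v + ε * (ψ v - φ v)) ≠ 1 :=
              hc.continuousAt.eventually_ne (by simpa using hB T' hT' hM)
            exact this.mono (fun _ h _ => h)
        have e3 : ∀ᶠ ε : ℝ in 𝓝[≠] 0, ε ≠ 0 := self_mem_nhdsWithin
        obtain ⟨ε, ⟨hε1, hε2⟩, hε3⟩ :=
          (((e1.and e2).filter_mono nhdsWithin_le_nhds).and e3).exists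
        have hsum : ∀ S : Finset V, ∑ v ∈ S, (φ v + ε * (ψ v - φ v))
            = ∑ v ∈ S, φ v + ε * (∑ v ∈ S, ψ v - ∑ v ∈ S, φ v) := by
          intro S
          rw [Finset.sum_add_distrib, ← Finset.mul_sum, Finset.sum_sub_distrib]
        refine ⟨fun v => φ v + ε * (ψ v - φ v), hε1, ?_, ?_⟩
        · intro S hS
          rw [hsum, hf S hS, hψ S hS]; ring
        · intro T' hT' hM
          rcases Finset.mem_insert.1 hT' with rfl | hT'
          · rw [hsum, hT1]
            intro h
            have : ε * (∑ v ∈ T', ψ v - 1) = 0 := by linarith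
            rcases mul_eq_zero.1 this with h | h
            · exact hε3 h
            · exact hψT (by linarith)
          · exact hε2 T' hT' hM
      · refine ⟨φ, hp, hf, ?_⟩
        intro T' hT' hM
        rcases Finset.mem_insert.1 hT' with rfl | hT'
        · intro h; exact hT ⟨hM, h⟩
        · exact hB T' hT' hM
  obtain ⟨φ, hp, hf, hB⟩ := key Finset.univ
  refine ⟨φ, hp, fun S => ⟨hf S, fun h => ?_⟩⟩
  by_contra hM
  exact hB S (Finset.mem_univ _) hM h

/-- Orlin's argument: a family of strong cliques covering all vertices and edges gives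
equistability. -/
theorem orlin {V I : Type} [Fintype V] [DecidableEq V] [Fintype I] [Nonempty I]
    (H : SimpleGraph V) (Q : I → Finset V)
    (hcl : ∀ i, ∀ x ∈ Q i, ∀ y ∈ Q i, x ≠ y → H.Adj x y)
    (hstrong : ∀ i S, Maximal (fun s : Finset V => H.IsIndepSet (s : Set V)) S →
      ∃ x ∈ S, x ∈ Q i)
    (hv : ∀ x, ∃ i, x ∈ Q i)
    (he : ∀ x y, H.Adj x y → ∃ i, x ∈ Q i ∧ y ∈ Q i) :
    ∃ φ : V → ℝ, (∀ v, 0 < φ v) ∧ ∀ S : Finset V,
      (Maximal (fun s : Finset V => H.IsIndepSet (s : Set V)) S ↔ ∑ v ∈ S, φ v = 1) := by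
  classical
  have hind : ∀ i (S : Finset V), ∑ v ∈ S, (if v ∈ Q i then (1 : ℝ) else 0) = #(S ∩ Q i) := by
    intro i S
    rw [Finset.sum_ite_mem]; simp
  have hone : ∀ i S, Maximal (fun s : Finset V => H.IsIndepSet (s : Set V)) S →
      ∑ v ∈ S, (if v ∈ Q i then (1 : ℝ) else 0) = 1 := by
    intro i S hS
    rw [hind]
    obtain ⟨x, hx, hxQ⟩ := hstrong i S hS
    have : S ∩ Q i = {x} := by
      ext y
      simp only [Finset.mem_inter, Finset.mem_singleton]
      constructor
      · rintro ⟨hy, hyQ⟩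
        by_contra hne
        exact hS.prop (Finset.mem_coe.2 hy) (Finset.mem_coe.2 hx) hne (hcl i y hyQ x hxQ hne)
      · rintro rfl; exact ⟨hx, hxQ⟩
    rw [this]; simp
  have hN : (0 : ℝ) < Fintype.card I := by exact_mod_cast Fintype.card_pos
  set φ0 : V → ℝ := fun v => (∑ i, (if v ∈ Q i then (1 : ℝ) else 0)) / Fintype.card I with hφ0
  have hpos : ∀ v, 0 < φ0 v := by
    intro v
    obtain ⟨i, hi⟩ := hv v
    apply div_pos _ hN
    apply Finset.sum_pos'
    · intro j _; split_ifs <;> norm_num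
    · exact ⟨i, Finset.mem_univ _, by simp [hi]⟩
  have hfeas : ∀ S, Maximal (fun s : Finset V => H.IsIndepSet (s : Set V)) S →
      ∑ v ∈ S, φ0 v = 1 := by
    intro S hS
    simp only [hφ0]
    rw [← Finset.sum_div, Finset.sum_comm, Finset.sum_congr rfl (fun i _ => hone i S hS)]
    simp only [Finset.sum_const, Finset.card_univ, nsmul_eq_mul, mul_one]
    exact div_self hN.ne'
  apply generic _ φ0 hpos hfeas
  intro T hT
  by_cases hind' : H.IsIndepSet (T : Set V)
  · refine ⟨φ0, hfeas, ?_⟩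
    obtain ⟨S, hTS, hS⟩ := Finite.exists_le_maximal
      (p := fun s : Finset V => H.IsIndepSet (s : Set V)) hind'
    have hne : T ≠ S := fun h => hT (h ▸ hS)
    have hss : T ⊂ S := lt_of_le_of_ne hTS hne
    obtain ⟨x, hxS, hxT⟩ := Finset.exists_of_ssubset hss
    have := Finset.sum_lt_sum_of_subset hTS hxS hxT (hpos x) (fun j _ _ => (hpos j).le)
    rw [hfeas S hS] at this
    exact this.ne
  · have : ∃ x ∈ T, ∃ y ∈ T, x ≠ y ∧ H.Adj x y := by
      by_contra hcon
      apply hind'
      intro x hx y hy hne hadj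
      exact hcon ⟨x, hx, y, hy, hne, hadj⟩
    obtain ⟨x, hx, y, hy, hne, hadj⟩ := this
    obtain ⟨i, hxi, hyi⟩ := he x y hadj
    refine ⟨fun v => if v ∈ Q i then 1 else 0, hone i, ?_⟩
    rw [hind]
    have : 1 < #(T ∩ Q i) := Finset.one_lt_card.2
      ⟨x, Finset.mem_inter.2 ⟨hx, hxi⟩, y, Finset.mem_inter.2 ⟨hy, hyi⟩, hne⟩
    intro h
    have h' : #(T ∩ Q i) = 1 := by exact_mod_cast h
    omega

end Pool.Agent.Work.MP_a8adbc_co
end

-- merged part: Pool.Agent.Work.MP_a8adbc_co.Graph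
section
set_option autoImplicit false

namespace Pool.Agent.Work.MP_a8adbc_co

open Finset

/-- vertices of the blow-up of the pentagon with classes of size three -/
abbrev P := Fin 5 × Fin 3
/-- edges of the blow-up: `(i, a, b)` joins `(i, a)` and `(i + 1, b)` -/
abbrev E := Fin 5 × Fin 3 × Fin 3

def lft (e : E) : P := (e.1, e.2.1)
def rgt (e : E) : P := (e.1 + 1, e.2.2)
def inc (v : P) (e : E) : Prop := lft e = v ∨ rgt e = v
instance (v : P) (e : E) : Decidable (inc v e) := by unfold inc; infer_instance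
def share (e f : E) : Prop := inc (lft e) f ∨ inc (rgt e) f
instance (e f : E) : Decidable (share e f) := by unfold share; infer_instance
def star (v : P) : Finset E := univ.filter (fun e => inc v e)

lemma mem_star {v : P} {e : E} : e ∈ star v ↔ inc v e := by simp [star]

lemma share_symm : ∀ e f : E, share e f → share f e := by
  intro e f h
  unfold share inc at *
  rcases h with (h | h) | (h | h)
  · exact Or.inl (Or.inl h.symm)
  · exact Or.inr (Or.inl h.symm)
  · exact Or.inl (Or.inr h.symm)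
  · exact Or.inr (Or.inr h.symm)
lemma share_refl : ∀ e : E, share e e := fun _ => Or.inl (Or.inl rfl)
lemma share_of_inc : ∀ (v : P) (e f : E), inc v e → inc v f → share e f := by
  intro v e f h1 h2
  rcases h1 with h1 | h1
  · exact Or.inl (h1 ▸ h2)
  · exact Or.inr (h1 ▸ h2)
lemma tri_aux (A B C D F G : P) (h1 : B.1 = A.1 + 1) (h2 : D.1 = C.1 + 1) (h3 : G.1 = F.1 + 1)
    (p : C = B ∨ D = B) (q : F = A ∨ G = A) (r : (F = C ∨ G = C) ∨ (F = D ∨ G = D)) :
    (C = A ∨ D = A) ∨ (F = B ∨ G = B) := by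
  rcases p with rfl | rfl <;> rcases q with rfl | rfl <;> rcases r with (rfl | rfl) | (rfl | rfl)
  all_goals first
    | exact Or.inl (Or.inl rfl)
    | exact Or.inl (Or.inr rfl)
    | exact Or.inr (Or.inl rfl)
    | exact Or.inr (Or.inr rfl)
    | (exfalso
       simp only [Fin.ext_iff, Fin.val_add, Fin.val_one] at h1 h2 h3
       omega)
lemma share_tri : ∀ e f g : E, share e f → share e g → share f g →
    inc (lft e) f ∨ inc (rgt e) g := by
  intro e f g h1 h2 h3
  rcases h1 with h1 | h1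
  · exact Or.inl h1
  rcases h2 with h2 | h2
  · exact tri_aux (lft e) (rgt e) (lft f) (rgt f) (lft g) (rgt g) rfl rfl rfl h1 h2 h3
  · exact Or.inr h2
lemma card_star : ∀ v : P, #(star v) = 6 := by
  rintro ⟨i, a⟩
  have hi : ∀ i : Fin 5, i - 1 ≠ i := by decide
  have h : star (i, a) = (univ.image (fun c : Fin 3 => ((i, a, c) : E))) ∪
      (univ.image (fun c : Fin 3 => ((i - 1, c, a) : E))) := by
    ext ⟨j, b, c⟩
    simp only [mem_star, inc, lft, rgt, Prod.mk.injEq, mem_union, mem_image, mem_univ, true_and]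
    constructor
    · rintro (⟨rfl, rfl⟩ | ⟨rfl, rfl⟩)
      · exact Or.inl ⟨c, rfl, rfl, rfl⟩
      · exact Or.inr ⟨b, add_sub_cancel_right _ _, rfl, rfl⟩
    · rintro (⟨_, rfl, rfl, rfl⟩ | ⟨_, rfl, rfl, rfl⟩)
      · exact Or.inl ⟨rfl, rfl⟩
      · exact Or.inr ⟨sub_add_cancel _ _, rfl⟩
  rw [h, card_union_of_disjoint, card_image_of_injective, card_image_of_injective]
  · rfl
  · intro x y hxy
    exact congrArg (fun z : E => z.2.1) hxy
  · intro x y hxy
    exact congrArg (fun z : E => z.2.2) hxy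
  · rw [disjoint_left]
    intro e h1 h2
    obtain ⟨x, -, rfl⟩ := mem_image.1 h1
    obtain ⟨y, -, hy⟩ := mem_image.1 h2
    exact hi i (congrArg Prod.fst hy)
lemma star_max : ∀ (v : P) (e : E), ¬ inc v e → ∃ f, inc v f ∧ ¬ share e f := by
  intro v e hv
  have h : ∀ a b : Fin 3, ∃ c : Fin 3, c ≠ a ∧ c ≠ b := by decide
  obtain ⟨c, h1, h2⟩ := h e.2.1 e.2.2
  refine ⟨(v.1, v.2, c), Or.inl rfl, ?_⟩
  rintro ((h3 | h3) | (h3 | h3))
  · exact hv (Or.inl h3.symm)
  · exact h1 (congrArg Prod.snd h3)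
  · exact hv (Or.inr h3.symm)
  · exact h2 (congrArg Prod.snd h3)
lemma star_big : ∀ (v : P) (e f : E), ∃ g, inc v g ∧ g ≠ e ∧ g ≠ f := by
  intro v e f
  have h : ∀ a b : Fin 3, ∃ c : Fin 3, c ≠ a ∧ c ≠ b := by decide
  obtain ⟨c, h1, h2⟩ := h e.2.2 f.2.2
  exact ⟨(v.1, v.2, c), Or.inl rfl, fun h => h1 (congrArg (fun x : E => x.2.2) h),
    fun h => h2 (congrArg (fun x : E => x.2.2) h)⟩
lemma exists_share : ∀ e : E, ∃ f, e ≠ f ∧ share e f := by
  intro e
  have h : ∀ a : Fin 3, a ≠ a + 1 := by decide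
  exact ⟨(e.1, e.2.1, e.2.2 + 1), fun h1 => h _ (congrArg (fun x : E => x.2.2) h1),
    Or.inl (Or.inl rfl)⟩
lemma inc_count : ∀ e : E, #(univ.filter (fun v : P => inc v e)) = 2 := by
  intro e
  have hi : ∀ i : Fin 5, i ≠ i + 1 := by decide
  have h : univ.filter (fun v : P => inc v e) = {lft e, rgt e} := by
    ext v
    rw [mem_filter, mem_insert, mem_singleton, and_iff_right (mem_univ v)]
    exact or_congr eq_comm eq_comm
  rw [h]
  exact card_pair (fun h1 => hi _ (congrArg Prod.fst h1))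

/-- ordered pairs of distinct edges with a common end -/
abbrev W := {p : E × E // p.1 ≠ p.2 ∧ share p.1 p.2}
abbrev V := E ⊕ W

def adj : V → V → Prop
  | .inl e, .inl f => ¬ share e f
  | .inl e, .inr p => e ≠ p.1.1 ∧ e ≠ p.1.2
  | .inr p, .inl e => e ≠ p.1.1 ∧ e ≠ p.1.2
  | .inr p, .inr q => p ≠ q

def G : SimpleGraph V where
  Adj := adj
  symm := ⟨by
    rintro (e | p) (f | q) h
    · exact fun h' => h (share_symm _ _ h')
    · exact h
    · exact h
    · exact fun h' => h h'.symm⟩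
  loopless := ⟨by
    rintro (e | p) h
    · exact h (share_refl e)
    · exact h rfl⟩

@[simp] lemma G_ll (e f : E) : G.Adj (.inl e) (.inl f) ↔ ¬ share e f := Iff.rfl
@[simp] lemma G_lr (e : E) (p : W) : G.Adj (.inl e) (.inr p) ↔ e ≠ p.1.1 ∧ e ≠ p.1.2 := Iff.rfl
@[simp] lemma G_rl (e : E) (p : W) : G.Adj (.inr p) (.inl e) ↔ e ≠ p.1.1 ∧ e ≠ p.1.2 := Iff.rfl
@[simp] lemma G_rr (p q : W) : G.Adj (.inr p) (.inr q) ↔ p ≠ q := Iff.rfl

/-- the stable triple attached to a new vertex -/
def Q (p : W) : Finset V := ({p.1.1, p.1.2} : Finset E).disjSum {p}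
/-- the star of a vertex of the blow-up, as a set of vertices of `G` -/
def St (v : P) : Finset V := (star v).disjSum ∅

lemma Q_indep (p : W) : G.IsIndepSet (Q p : Set V) := by
  rintro (e | q) hx (f | r) hy hne
  · simp only [Q, mem_coe, inl_mem_disjSum, mem_insert, mem_singleton] at hx hy
    simp only [G_ll, not_not]
    rcases hx with rfl | rfl <;> rcases hy with rfl | rfl
    · exact share_refl _
    · exact p.2.2
    · exact share_symm _ _ p.2.2
    · exact share_refl _
  · simp only [Q, mem_coe, inl_mem_disjSum, inr_mem_disjSum, mem_insert, mem_singleton] at hx hy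
    subst hy
    simp only [G_lr]
    tauto
  · simp only [Q, mem_coe, inl_mem_disjSum, inr_mem_disjSum, mem_insert, mem_singleton] at hx hy
    subst hx
    simp only [G_rl]
    tauto
  · simp only [Q, mem_coe, inr_mem_disjSum, mem_singleton] at hx hy
    subst hx; subst hy
    exact absurd rfl hne

lemma St_indep (v : P) : G.IsIndepSet (St v : Set V) := by
  rintro (e | q) hx (f | r) hy hne
  · simp only [St, mem_coe, inl_mem_disjSum, mem_star] at hx hy
    simp only [G_ll, not_not]
    exact share_of_inc v _ _ hx hy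
  · simp [St] at hy
  · simp [St] at hx
  · simp [St] at hx

lemma not_adj_w (p : W) (x : V) (h : ¬ G.Adj x (.inr p)) : x ∈ Q p := by
  rcases x with e | q
  · simp only [G_lr] at h
    simp only [Q, inl_mem_disjSum, mem_insert, mem_singleton]
    tauto
  · simp only [G_rr, not_not] at h
    simp [Q, h]

lemma w_mem_Q (p : W) : (.inr p : V) ∈ Q p := by simp [Q]

lemma Q_max (p : W) : Maximal (fun s : Finset V => G.IsIndepSet (s : Set V)) (Q p) := by
  refine ⟨Q_indep p, fun T hT hle x hx => ?_⟩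
  by_cases hxp : x = .inr p
  · rw [hxp]; exact w_mem_Q p
  · exact not_adj_w p x (hT (mem_coe.2 hx) (mem_coe.2 (hle (w_mem_Q p))) hxp)

lemma St_max (v : P) : Maximal (fun s : Finset V => G.IsIndepSet (s : Set V)) (St v) := by
  refine ⟨St_indep v, fun T hT hle x hx => ?_⟩
  rcases x with e | p
  · simp only [St, inl_mem_disjSum, mem_star]
    by_contra he
    obtain ⟨f, hf, hef⟩ := star_max v e he
    have hfT : (.inl f : V) ∈ T := hle (by simpa [St, mem_star] using hf)
    have hne : (.inl e : V) ≠ .inl f := by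
      intro h
      rw [Sum.inl.injEq] at h
      exact he (h ▸ hf)
    exact hT (mem_coe.2 hx) (mem_coe.2 hfT) hne hef
  · exfalso
    obtain ⟨g, hg, h1, h2⟩ := star_big v p.1.1 p.1.2
    have hgT : (.inl g : V) ∈ T := hle (by simpa [St, mem_star] using hg)
    exact hT (mem_coe.2 hgT) (mem_coe.2 hx) (by simp) ⟨h1, h2⟩

lemma max_cases (S : Finset V) (hS : Maximal (fun s : Finset V => G.IsIndepSet (s : Set V)) S) :
    (∃ v, S = St v) ∨ ∃ p, S = Q p := by
  by_cases hw : ∃ p : W, (.inr p : V) ∈ S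
  · obtain ⟨p, hp⟩ := hw
    right
    refine ⟨p, ?_⟩
    have hle : S ≤ Q p := by
      intro x hx
      by_cases hxp : x = .inr p
      · rw [hxp]; exact w_mem_Q p
      · exact not_adj_w p x (hS.prop (mem_coe.2 hx) (mem_coe.2 hp) hxp)
    exact le_antisymm hle (hS.le_of_ge (Q_indep p) hle)
  · left
    have hsh : ∀ e f : E, (.inl e : V) ∈ S → (.inl f : V) ∈ S → share e f := by
      intro e f he hf
      by_cases hef : e = f
      · rw [hef]; exact share_refl _
      · have := hS.prop (mem_coe.2 he) (mem_coe.2 hf) (by simpa using hef)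
        simpa using this
    have hex : ∃ v : P, ∀ e : E, (.inl e : V) ∈ S → inc v e := by
      by_cases h0 : ∃ e : E, (.inl e : V) ∈ S
      · obtain ⟨e, he⟩ := h0
        by_cases h1 : ∀ f : E, (.inl f : V) ∈ S → inc (lft e) f
        · exact ⟨_, h1⟩
        · push Not at h1
          obtain ⟨f, hf, hnf⟩ := h1
          refine ⟨rgt e, fun g hg => ?_⟩
          exact (share_tri e f g (hsh _ _ he hf) (hsh _ _ he hg) (hsh _ _ hf hg)).resolve_left hnf
      · exact ⟨(0, 0), fun e he => absurd ⟨e, he⟩ h0⟩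
    obtain ⟨v, hv⟩ := hex
    refine ⟨v, ?_⟩
    have hle : S ≤ St v := by
      rintro (e | p) hx
      · simpa [St, mem_star] using hv e hx
      · exact absurd ⟨p, hx⟩ hw
    exact le_antisymm hle (hS.le_of_ge (St_indep v) hle)

/-- `G` is not a general partition graph -/
theorem not_gp : ¬ ∃ n : ℕ, ∃ U : V → Finset (Fin n),
          (∀ v, (U v).Nonempty) ∧
          (∀ u v, u ≠ v → (G.Adj u v ↔ ¬ Disjoint (U u) (U v))) ∧
          ∀ S : Finset V, Maximal (fun s : Finset V => G.IsIndepSet (s : Set V)) S →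
            (∀ u ∈ S, ∀ v ∈ S, u ≠ v → Disjoint (U u) (U v)) ∧
            S.biUnion U = Finset.univ := by
  rintro ⟨n, U, hne, hadj, hmax⟩
  obtain ⟨x, -⟩ := hne (.inl (0, 0, 0))
  set M : Finset E := univ.filter (fun e => x ∈ U (.inl e)) with hM
  have h1 : ∀ v : P, #(M.filter (fun e => inc v e)) = 1 := by
    intro v
    obtain ⟨hd, hu⟩ := hmax _ (St_max v)
    have : x ∈ (St v).biUnion U := by rw [hu]; exact mem_univ _
    obtain ⟨y, hy, hxy⟩ := mem_biUnion.1 this
    rcases y with e | p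
    · rw [card_eq_one]
      refine ⟨e, ?_⟩
      have he : inc v e := by simpa [St, mem_star] using hy
      ext f
      simp only [hM, mem_filter, mem_univ, true_and, mem_singleton]
      constructor
      · rintro ⟨hf, hvf⟩
        by_contra hfe
        have hfS : (.inl f : V) ∈ St v := by simpa [St, mem_star] using hvf
        have := hd _ hfS _ hy (by simpa using hfe)
        exact (Finset.disjoint_left.1 this) hf hxy
      · rintro rfl; exact ⟨hxy, he⟩
    · simp [St] at hy
  have h2 : ∑ v : P, #(M.filter (fun e => inc v e)) = ∑ e ∈ M, #(univ.filter (fun v : P => inc v e)) := by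
    simp only [card_filter]
    exact Finset.sum_comm
  rw [Finset.sum_congr rfl (fun v _ => h1 v), Finset.sum_congr rfl (fun e _ => inc_count e)] at h2
  simp at h2
  omega

/-- the complement of `G` is equistable -/
theorem compl_equi : ∃ φ : V → ℝ, (∀ v, 0 < φ v) ∧ ∀ S : Finset V,
      (Maximal (fun s : Finset V => Gᶜ.IsIndepSet (s : Set V)) S ↔ ∑ v ∈ S, φ v = 1) := by
  have : Nonempty W := ⟨⟨((0, 0, 0), (0, 0, 1)), by decide⟩⟩
  apply orlin Gᶜ Q
  · intro p x hx y hy hne
    exact ⟨hne, Q_indep p (mem_coe.2 hx) (mem_coe.2 hy) hne⟩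
  · intro p S hS
    by_contra hcon
    push Not at hcon
    have hp : (.inr p : V) ∉ S := fun h => hcon _ h (w_mem_Q p)
    have hall : ∀ x ∈ S, G.Adj x (.inr p) := by
      intro x hx
      by_contra h
      exact hcon x hx (not_adj_w p x h)
    have hind : Gᶜ.IsIndepSet ((insert (.inr p : V) S : Finset V) : Set V) := by
      rw [SimpleGraph.isIndepSet_compl, coe_insert]
      have hcl : G.IsClique (S : Set V) := (SimpleGraph.isIndepSet_compl G).1 hS.prop
      exact hcl.insert (fun b hb _ => (hall b hb).symm)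
    exact hp (hS.le_of_ge hind (subset_insert _ _) (mem_insert_self _ _))
  · rintro (e | p)
    · obtain ⟨f, h1, h2⟩ := exists_share e
      exact ⟨⟨(e, f), h1, h2⟩, by simp [Q]⟩
    · exact ⟨p, w_mem_Q p⟩
  · rintro (e | p) (f | q) ⟨hne, h⟩
    · simp only [G_ll, not_not] at h
      exact ⟨⟨(e, f), by simpa using hne, h⟩, by simp [Q], by simp [Q]⟩
    · exact ⟨q, not_adj_w q _ h, w_mem_Q q⟩
    · exact ⟨p, w_mem_Q p, not_adj_w p _ (fun h' => h h'.symm)⟩
    · simp only [G_rr, not_not] at h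
      exact absurd (congrArg _ h) hne

end Pool.Agent.Work.MP_a8adbc_co
end
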