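import Mathlib
import Pool.Agent.Work.MP_a8adbc_co.Graph

set_option autoImplicit false

namespace Pool.Agent.Work.MP_a8adbc_co

open Finset

/-- alternating weighting of a four-cycle of the blow-up -/
def cyc (j : Fin 5) (c a a' b : Fin 3) (e : E) : ℤ :=
  (if e = (j + 1, a, b) then 1 else 0) - (if e = (j + 1, a', b) then 1 else 0)
    - (if e = (j, c, a) then 1 else 0) + (if e = (j, c, a') then 1 else 0)

lemma cyc_star : ∀ (j : Fin 5) (c a a' b : Fin 3) (v : P),
    ∑ e ∈ star v, cyc j c a a' b e = 0 := by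
  intro j c a a' b v
  simp only [cyc, Finset.sum_add_distrib, Finset.sum_sub_distrib, Finset.sum_ite_eq', mem_star]
  revert j c a a' b v
  decide +kernel

lemma sum_cyc (A : Finset E) (j : Fin 5) (c a a' b : Fin 3) :
    ∑ e ∈ A, cyc j c a a' b e =
      (if (j + 1, a, b) ∈ A then 1 else 0) - (if (j + 1, a', b) ∈ A then 1 else 0)
        - (if (j, c, a) ∈ A then 1 else 0) + (if (j, c, a') ∈ A then 1 else 0) := by
  simp only [cyc, Finset.sum_add_distrib, Finset.sum_sub_distrib, Finset.sum_ite_eq']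

lemma star_eq : ∀ (j : Fin 5) (a : Fin 3) (e : E), inc (j + 1, a) e →
    (∃ b, e = (j + 1, a, b)) ∨ ∃ c, e = (j, c, a) := by decide +kernel

/-- a weighting orthogonal to all four-cycles with no jump is constant on blocks -/
lemma block_const (z : E → ℤ)
    (h : ∀ (j : Fin 5) (c a a' b : Fin 3),
      z (j + 1, a, b) - z (j + 1, a', b) - z (j, c, a) + z (j, c, a') = 0)
    (h0 : ∀ (j : Fin 5) (a a' b : Fin 3), z (j + 1, a, b) = z (j + 1, a', b)) :
    ∀ (i : Fin 5) (a b : Fin 3), z (i, a, b) = z (i, 0, 0) := by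
  intro i a b
  have e1 : z (i, a, b) = z (i, 0, b) := by
    have := h0 (i - 1) a 0 b
    rwa [sub_add_cancel] at this
  have e2 := h i 0 b 0 0
  have e3 := h0 i b 0 0
  omega

lemma case_star (A : Finset E) (hA : #A = 6)
    (h : ∀ (j : Fin 5) (c a a' b : Fin 3), ∑ e ∈ A, cyc j c a a' b e = 0) :
    ∃ v, A = star v := by
  set z : E → ℤ := fun e => if e ∈ A then 1 else 0 with hz
  have h' : ∀ (j : Fin 5) (c a a' b : Fin 3),
      z (j + 1, a, b) - z (j + 1, a', b) - z (j, c, a) + z (j, c, a') = 0 := by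
    intro j c a a' b
    rw [← h j c a a' b, sum_cyc]
  have hz01 : ∀ e, 0 ≤ z e ∧ z e ≤ 1 := by
    intro e; simp only [hz]; split_ifs <;> omega
  have hz1 : ∀ e, z e = 1 → e ∈ A := by
    intro e; simp only [hz]; split_ifs with h <;> simp [h]
  by_cases h0 : ∀ (j : Fin 5) (a a' b : Fin 3), z (j + 1, a, b) = z (j + 1, a', b)
  · exfalso
    have hc := block_const z h' h0
    have hs : ∑ e, z e = 6 := by
      simp only [hz]
      rw [Finset.sum_ite_mem]; simp [hA]
    have hs2 : ∑ e, z e = 9 * ∑ i : Fin 5, z (i, 0, 0) := by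
      rw [Fintype.sum_prod_type, Finset.mul_sum]
      refine Finset.sum_congr rfl (fun i _ => ?_)
      rw [Finset.sum_congr rfl (fun (y : Fin 3 × Fin 3) _ => hc i y.1 y.2)]
      simp
    omega
  · have hex : ∃ (j : Fin 5) (a a' b : Fin 3), z (j + 1, a, b) - z (j + 1, a', b) = 1 := by
      push Not at h0
      obtain ⟨j, a, a', b, hne⟩ := h0
      have := hz01 (j + 1, a, b)
      have := hz01 (j + 1, a', b)
      by_cases hlt : z (j + 1, a, b) < z (j + 1, a', b)
      · exact ⟨j, a', a, b, by omega⟩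
      · exact ⟨j, a, a', b, by omega⟩
    obtain ⟨j, a, a', b, hd⟩ := hex
    refine ⟨(j + 1, a), ?_⟩
    symm
    apply Finset.eq_of_subset_of_card_le _ (by rw [hA, card_star])
    intro e he
    apply hz1
    rcases star_eq j a e (mem_star.1 he) with ⟨b', rfl⟩ | ⟨c, rfl⟩
    · have e1 := h' j 0 a a' b
      have e2 := h' j 0 a a' b'
      have := hz01 (j + 1, a, b')
      have := hz01 (j + 1, a', b')
      omega
    · have e1 := h' j c a a' b
      have := hz01 (j, c, a)
      have := hz01 (j, c, a')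
      omega

lemma small_sum (X : Finset E) (A T : Finset E) (hA : #A = 2) (hT : #T = 2) :
    -2 ≤ ∑ e ∈ X, ((if e ∈ A then (1 : ℤ) else 0) - (if e ∈ T then 1 else 0)) ∧
      ∑ e ∈ X, ((if e ∈ A then (1 : ℤ) else 0) - (if e ∈ T then 1 else 0)) ≤ 2 := by
  rw [Finset.sum_sub_distrib, Finset.sum_ite_mem, Finset.sum_ite_mem]
  simp only [Finset.sum_const, nsmul_eq_mul, mul_one]
  have h1 : #(X ∩ A) ≤ 2 := hA ▸ card_le_card inter_subset_right
  have h2 : #(X ∩ T) ≤ 2 := hT ▸ card_le_card inter_subset_right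
  omega

def star' (j : Fin 5) (a : Fin 3) : Finset E :=
  {(j + 1, a, 0), (j + 1, a, 1), (j + 1, a, 2), (j, 0, a), (j, 1, a), (j, 2, a)}

lemma sum_star' (z : E → ℤ) (j : Fin 5) (a : Fin 3) : ∑ e ∈ star' j a, z e =
    z (j + 1, a, 0) + z (j + 1, a, 1) + z (j + 1, a, 2) + z (j, 0, a) + z (j, 1, a) + z (j, 2, a) := by
  have hj : j + 1 ≠ j := by revert j; decide
  unfold star'
  rw [sum_insert (by simp [hj]), sum_insert (by simp [hj]), sum_insert (by simp [hj]),
    sum_insert (by simp), sum_insert (by simp), sum_singleton]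
  ring

lemma case_pair (A T : Finset E) (hA : #A = 2) (hT : #T = 2)
    (h : ∀ (j : Fin 5) (c a a' b : Fin 3),
      ∑ e ∈ A, cyc j c a a' b e = ∑ e ∈ T, cyc j c a a' b e) : A = T := by
  set z : E → ℤ := fun e => (if e ∈ A then 1 else 0) - (if e ∈ T then 1 else 0) with hz
  have h' : ∀ (j : Fin 5) (c a a' b : Fin 3),
      z (j + 1, a, b) - z (j + 1, a', b) - z (j, c, a) + z (j, c, a') = 0 := by
    intro j c a a' b
    have := h j c a a' b
    rw [sum_cyc, sum_cyc] at this
    simp only [hz]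
    linarith
  have hs : ∀ X : Finset E, -2 ≤ ∑ e ∈ X, z e ∧ ∑ e ∈ X, z e ≤ 2 :=
    fun X => small_sum X A T hA hT
  have h0 : ∀ (j : Fin 5) (a a' b : Fin 3), z (j + 1, a, b) = z (j + 1, a', b) := by
    intro j a a' b
    have s1 := hs (star' j a)
    have s2 := hs (star' j a')
    rw [sum_star'] at s1 s2
    have e0 := h' j 0 a a' b
    have e1 := h' j 1 a a' b
    have e2 := h' j 2 a a' b
    have f0 := h' j 0 a a' 0
    have f1 := h' j 0 a a' 1
    have f2 := h' j 0 a a' 2
    omega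
  have hc := block_const z h' h0
  have hz0 : ∀ e, z e = 0 := by
    rintro ⟨i, a, b⟩
    have s1 := hs {(i, 0, 0), (i, 0, 1), (i, 0, 2)}
    rw [sum_insert (by simp), sum_insert (by simp), sum_singleton] at s1
    have := hc i a b
    have := hc i 0 1
    have := hc i 0 2
    omega
  ext e
  have := hz0 e
  simp only [hz] at this
  split_ifs at this with h1 h2 h2 <;> simp_all

/-- extension of an edge weighting to the vertices of `G` -/
def extw (y : E → ℝ) : V → ℝ
  | .inl e => y e
  | .inr p => 1 - y p.1.1 - y p.1.2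

lemma sum_extw (y : E → ℝ) (T : Finset V) : ∑ v ∈ T, extw y v =
    ∑ e ∈ T.toLeft, y e + ∑ p ∈ T.toRight, (1 - y p.1.1 - y p.1.2) :=
  Finset.sum_sum_eq_sum_toLeft_add_sum_toRight T _

lemma extw_feas (y : E → ℝ) (hy : ∀ v, ∑ e ∈ star v, y e = 1) (S : Finset V)
    (hS : Maximal (fun s : Finset V => G.IsIndepSet (s : Set V)) S) :
    ∑ v ∈ S, extw y v = 1 := by
  rw [sum_extw]
  rcases max_cases S hS with ⟨v, rfl⟩ | ⟨p, rfl⟩
  · simp only [St, toLeft_disjSum, toRight_disjSum, sum_empty, hy, add_zero]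
  · simp only [Q, toLeft_disjSum, toRight_disjSum, sum_singleton]
    rw [sum_pair p.2.1]
    ring

/-- `G` is equistable -/
theorem G_equi : ∃ φ : V → ℝ, (∀ v, 0 < φ v) ∧ ∀ S : Finset V,
      (Maximal (fun s : Finset V => G.IsIndepSet (s : Set V)) S ↔ ∑ v ∈ S, φ v = 1) := by
  have hu : ∀ v, ∑ _e ∈ star v, (1 / 6 : ℝ) = 1 := by
    intro v; simp [card_star]
  apply generic _ (extw (fun _ => 1 / 6))
  · rintro (e | p) <;> simp only [extw] <;> norm_num
  · exact extw_feas _ hu
  · intro T hT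
    by_contra hcon
    have hall : ∀ y : E → ℝ, (∀ v, ∑ e ∈ star v, y e = 1) → ∑ v ∈ T, extw y v = 1 := by
      intro y hy
      by_contra h
      exact hcon ⟨extw y, extw_feas y hy, h⟩
    have h1 := hall _ hu
    rw [sum_extw] at h1
    simp only [sum_const, nsmul_eq_mul] at h1
    have hcard : #T.toLeft + 4 * #T.toRight = 6 := by
      have : (#T.toLeft : ℝ) + 4 * #T.toRight = 6 := by linarith
      exact_mod_cast this
    have h2 : ∀ (j : Fin 5) (c a a' b : Fin 3), ∑ e ∈ T.toLeft, cyc j c a a' b e =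
        ∑ p ∈ T.toRight, (cyc j c a a' b p.1.1 + cyc j c a a' b p.1.2) := by
      intro j c a a' b
      have hy : ∀ v, ∑ e ∈ star v, ((1 / 6 : ℝ) + (cyc j c a a' b e : ℝ)) = 1 := by
        intro v
        rw [sum_add_distrib, hu, ← Int.cast_sum, cyc_star]; simp
      have h3 := hall _ hy
      rw [sum_extw, sum_add_distrib] at h3
      have h4 : ∑ p ∈ T.toRight, (1 - ((1 / 6 : ℝ) + (cyc j c a a' b p.1.1 : ℝ))
            - (1 / 6 + (cyc j c a a' b p.1.2 : ℝ)))
          = ∑ p ∈ T.toRight, ((1 : ℝ) - 1 / 6 - 1 / 6)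
            - ∑ p ∈ T.toRight, ((cyc j c a a' b p.1.1 : ℝ) + (cyc j c a a' b p.1.2 : ℝ)) := by
        rw [← sum_sub_distrib]
        exact sum_congr rfl (fun p _ => by ring)
      rw [h4] at h3
      simp only [sum_const, nsmul_eq_mul] at h3
      have : ∑ e ∈ T.toLeft, (cyc j c a a' b e : ℝ) =
          ∑ p ∈ T.toRight, ((cyc j c a a' b p.1.1 : ℝ) + (cyc j c a a' b p.1.2 : ℝ)) := by
        linarith
      exact_mod_cast this
    apply hT
    have hB : #T.toRight = 0 ∨ #T.toRight = 1 := by omega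
    rcases hB with hB | hB
    · have hB' := card_eq_zero.1 hB
      obtain ⟨v, hv⟩ := case_star T.toLeft (by omega) (by
        intro j c a a' b
        rw [h2, hB']; simp)
      have : T = St v := by
        rw [← toLeft_disjSum_toRight (u := T), hv, hB']; rfl
      rw [this]; exact St_max v
    · obtain ⟨p, hp⟩ := card_eq_one.1 hB
      have hA := case_pair T.toLeft {p.1.1, p.1.2} (by omega) (card_pair p.2.1) (by
        intro j c a a' b
        rw [h2, hp, sum_singleton, sum_pair p.2.1])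
      have : T = Q p := by
        rw [← toLeft_disjSum_toRight (u := T), hA, hp]; rfl
      rw [this]; exact Q_max p

end Pool.Agent.Work.MP_a8adbc_co
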