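import Pool.Agent.Work.MP_a8adbc_co.Equi

/-! Extra properties of the example: strong equistability, and the complement is a general
partition graph. -/

set_option autoImplicit false

namespace Pool.Agent.Work.MP_a8adbc_co

open Finset

/-- a family of strong cliques covering all vertices and edges gives strong equistability -/
theorem orlin_strong {V I : Type} [Fintype V] [Fintype I] [Nonempty I]
    (H : SimpleGraph V) (F : V → Set I) (hv : ∀ x, (F x).Nonempty)
    (he : ∀ x y, H.Adj x y → (F x ∩ F y).Nonempty)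
    (hs : ∀ S, Maximal (fun s : Finset V => H.IsIndepSet (s : Set V)) S →
      ∀ i, ∃! x, x ∈ S ∧ i ∈ F x)
    (T : Finset V) (hT0 : T.Nonempty)
    (hT : ¬ Maximal (fun s : Finset V => H.IsIndepSet (s : Set V)) T) (γ : ℝ) (hγ : γ ≤ 1) :
    ∃ φ : V → ℝ, (∀ v, 0 < φ v) ∧
      (∀ S, Maximal (fun s : Finset V => H.IsIndepSet (s : Set V)) S → ∑ v ∈ S, φ v = 1) ∧
      ∑ v ∈ T, φ v ≠ γ := by
  classical
  have hind : ∀ i (S : Finset V),
      ∑ v ∈ S, (if i ∈ F v then (1 : ℝ) else 0) = #(S.filter fun v => i ∈ F v) := by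
    intro i S
    rw [Finset.sum_boole]
  have hone : ∀ i S, Maximal (fun s : Finset V => H.IsIndepSet (s : Set V)) S →
      ∑ v ∈ S, (if i ∈ F v then (1 : ℝ) else 0) = 1 := by
    intro i S hS
    obtain ⟨x, hx, hu⟩ := hs S hS i
    have : (S.filter fun v => i ∈ F v) = {x} := by
      ext y
      rw [mem_filter, mem_singleton]
      exact ⟨hu y, fun h => h ▸ hx⟩
    rw [hind, this]
    simp
  have hN : (0 : ℝ) < Fintype.card I := by exact_mod_cast Fintype.card_pos
  set φ0 : V → ℝ := fun v => (∑ i, (if i ∈ F v then (1 : ℝ) else 0)) / Fintype.card I with hφ0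
  have hpos : ∀ v, 0 < φ0 v := by
    intro v
    obtain ⟨i, hi⟩ := hv v
    apply div_pos _ hN
    apply Finset.sum_pos'
    · intro j _; split_ifs <;> norm_num
    · exact ⟨i, Finset.mem_univ _, by simp [hi]⟩
  have hfeas : ∀ S, Maximal (fun s : Finset V => H.IsIndepSet (s : Set V)) S →
      ∑ v ∈ S, φ0 v = 1 := by
    intro S hS
    simp only [hφ0]
    rw [← Finset.sum_div, Finset.sum_comm, Finset.sum_congr rfl (fun i _ => hone i S hS)]
    simp only [Finset.sum_const, Finset.card_univ, nsmul_eq_mul, mul_one]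
    exact div_self hN.ne'
  by_contra hcon
  push Not at hcon
  have h0 := hcon φ0 hpos hfeas
  have h1 : ∀ i, (#(T.filter fun v => i ∈ F v) : ℝ) = γ := by
    intro i
    have := hcon (fun v => (φ0 v + if i ∈ F v then (1 : ℝ) else 0) / 2)
      (fun v => by have := hpos v; split_ifs <;> linarith)
      (fun S hS => by rw [← Finset.sum_div, sum_add_distrib, hfeas S hS, hone i S hS]; norm_num)
    rw [← Finset.sum_div, sum_add_distrib, h0, hind] at this
    linarith
  have h2 : γ = 1 := by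
    obtain ⟨x, hx⟩ := hT0
    obtain ⟨i, hi⟩ := hv x
    have : 1 ≤ #(T.filter fun v => i ∈ F v) := card_pos.2 ⟨x, mem_filter.2 ⟨hx, hi⟩⟩
    have h3 : (1 : ℝ) ≤ #(T.filter fun v => i ∈ F v) := by exact_mod_cast this
    linarith [h1 i]
  have h3 : H.IsIndepSet (T : Set V) := by
    intro x hx y hy hne hadj
    obtain ⟨i, hxi, hyi⟩ := he x y hadj
    have : 1 < #(T.filter fun v => i ∈ F v) :=
      one_lt_card.2 ⟨x, mem_filter.2 ⟨hx, hxi⟩, y, mem_filter.2 ⟨hy, hyi⟩, hne⟩
    have h4 : (1 : ℝ) < #(T.filter fun v => i ∈ F v) := by exact_mod_cast this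
    linarith [h1 i]
  obtain ⟨S, hTS, hS⟩ := Finite.exists_le_maximal
    (p := fun s : Finset V => H.IsIndepSet (s : Set V)) h3
  have hne : T ≠ S := fun h => hT (h ▸ hS)
  obtain ⟨x, hxS, hxT⟩ := Finset.exists_of_ssubset (lt_of_le_of_ne hTS hne)
  have := Finset.sum_lt_sum_of_subset hTS hxS hxT (hpos x) (fun j _ _ => (hpos j).le)
  rw [hfeas S hS, h0] at this
  linarith

/-- the sets showing that the complement is a general partition graph -/
def FW (x : V) : Set W := {p | x ∈ Q p}

lemma FW_ne : ∀ x, (FW x).Nonempty := by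
  rintro (e | p)
  · obtain ⟨f, h1, h2⟩ := exists_share e
    exact ⟨⟨(e, f), h1, h2⟩, by simp [FW, Q]⟩
  · exact ⟨p, w_mem_Q p⟩

lemma FW_adj (x y : V) (hne : x ≠ y) : Gᶜ.Adj x y ↔ (FW x ∩ FW y).Nonempty := by
  constructor
  · rcases x with e | p <;> rcases y with f | q <;> rintro ⟨-, h⟩
    · simp only [G_ll, not_not] at h
      exact ⟨⟨(e, f), by simpa using hne, h⟩, by simp [FW, Q], by simp [FW, Q]⟩
    · exact ⟨q, not_adj_w q _ h, w_mem_Q q⟩
    · exact ⟨p, w_mem_Q p, not_adj_w p _ (fun h' => h h'.symm)⟩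
    · simp only [G_rr, not_not] at h
      exact absurd (congrArg _ h) hne
  · rintro ⟨p, hx, hy⟩
    exact ⟨hne, Q_indep p (mem_coe.2 hx) (mem_coe.2 hy) hne⟩

lemma FW_part (S : Finset V) (hS : Maximal (fun s : Finset V => Gᶜ.IsIndepSet (s : Set V)) S)
    (p : W) : ∃! x, x ∈ S ∧ p ∈ FW x := by
  have hex : ∃ x ∈ S, x ∈ Q p := by
    by_contra hcon
    push Not at hcon
    have hp : (.inr p : V) ∉ S := fun h => hcon _ h (w_mem_Q p)
    have hall : ∀ x ∈ S, G.Adj x (.inr p) := by
      intro x hx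
      by_contra h
      exact hcon x hx (not_adj_w p x h)
    have hind : Gᶜ.IsIndepSet ((insert (.inr p : V) S : Finset V) : Set V) := by
      rw [SimpleGraph.isIndepSet_compl, coe_insert]
      have hcl : G.IsClique (S : Set V) := (SimpleGraph.isIndepSet_compl G).1 hS.prop
      exact hcl.insert (fun b hb _ => (hall b hb).symm)
    exact hp (hS.le_of_ge hind (subset_insert _ _) (mem_insert_self _ _))
  obtain ⟨x, hx, hxQ⟩ := hex
  refine ⟨x, ⟨hx, hxQ⟩, fun y hy => ?_⟩
  by_contra hne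
  exact hS.prop (mem_coe.2 hy.1) (mem_coe.2 hx) hne ((FW_adj y x hne).2 ⟨p, hy.2, hxQ⟩)

/-- no point lies in exactly one set of each maximal stable set of `G` -/
theorem not_gp' {U : Type} (F : V → Set U) (hne : ∀ v, (F v).Nonempty)
    (hmax : ∀ S : Finset V, Maximal (fun s : Finset V => G.IsIndepSet (s : Set V)) S →
      ∀ x, ∃! v, v ∈ S ∧ x ∈ F v) : False := by
  classical
  obtain ⟨x, -⟩ := hne (.inl (0, 0, 0))
  set M : Finset E := univ.filter (fun e => x ∈ F (.inl e)) with hM
  have h1 : ∀ v : P, #(M.filter (fun e => inc v e)) = 1 := by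
    intro v
    obtain ⟨y, ⟨hy, hxy⟩, hu⟩ := hmax _ (St_max v) x
    rcases y with e | p
    · rw [card_eq_one]
      refine ⟨e, ?_⟩
      have he : inc v e := by simpa [St, mem_star] using hy
      ext f
      simp only [hM, mem_filter, mem_univ, true_and, mem_singleton]
      constructor
      · rintro ⟨hf, hvf⟩
        have hfS : (.inl f : V) ∈ St v := by simpa [St, mem_star] using hvf
        exact Sum.inl.inj (hu _ ⟨hfS, hf⟩)
      · rintro rfl; exact ⟨hxy, he⟩
    · simp [St] at hy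
  have h2 : ∑ v : P, #(M.filter (fun e => inc v e)) =
      ∑ e ∈ M, #(univ.filter (fun v : P => inc v e)) := by
    simp only [card_filter]
    exact Finset.sum_comm
  rw [Finset.sum_congr rfl (fun v _ => h1 v), Finset.sum_congr rfl (fun e _ => inc_count e)] at h2
  simp at h2
  omega

lemma case_star' (A : Finset E) (hA0 : A.Nonempty) (hA : #A ≤ 6)
    (h : ∀ (j : Fin 5) (c a a' b : Fin 3), ∑ e ∈ A, cyc j c a a' b e = 0) :
    ∃ v, A = star v := by
  set z : E → ℤ := fun e => if e ∈ A then 1 else 0 with hz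
  have h' : ∀ (j : Fin 5) (c a a' b : Fin 3),
      z (j + 1, a, b) - z (j + 1, a', b) - z (j, c, a) + z (j, c, a') = 0 := by
    intro j c a a' b
    rw [← h j c a a' b, sum_cyc]
  have hz01 : ∀ e, 0 ≤ z e ∧ z e ≤ 1 := by
    intro e; simp only [hz]; split_ifs <;> omega
  have hz1 : ∀ e, z e = 1 → e ∈ A := by
    intro e; simp only [hz]; split_ifs with h <;> simp [h]
  by_cases h0 : ∀ (j : Fin 5) (a a' b : Fin 3), z (j + 1, a, b) = z (j + 1, a', b)
  · exfalso
    have hc := block_const z h' h0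
    have hs : ∑ e, z e = #A := by
      simp only [hz]
      rw [Finset.sum_ite_mem]; simp
    have hs2 : ∑ e, z e = 9 * ∑ i : Fin 5, z (i, 0, 0) := by
      rw [Fintype.sum_prod_type, Finset.mul_sum]
      refine Finset.sum_congr rfl (fun i _ => ?_)
      rw [Finset.sum_congr rfl (fun (y : Fin 3 × Fin 3) _ => hc i y.1 y.2)]
      simp
    have := card_pos.2 hA0
    omega
  · have hex : ∃ (j : Fin 5) (a a' b : Fin 3), z (j + 1, a, b) - z (j + 1, a', b) = 1 := by
      push Not at h0
      obtain ⟨j, a, a', b, hne⟩ := h0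
      have := hz01 (j + 1, a, b)
      have := hz01 (j + 1, a', b)
      by_cases hlt : z (j + 1, a, b) < z (j + 1, a', b)
      · exact ⟨j, a', a, b, by omega⟩
      · exact ⟨j, a, a', b, by omega⟩
    obtain ⟨j, a, a', b, hd⟩ := hex
    refine ⟨(j + 1, a), ?_⟩
    symm
    apply Finset.eq_of_subset_of_card_le _ (by rw [card_star]; exact hA)
    intro e he
    apply hz1
    rcases star_eq j a e (mem_star.1 he) with ⟨b', rfl⟩ | ⟨c, rfl⟩
    · have e1 := h' j 0 a a' b
      have e2 := h' j 0 a a' b'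
      have := hz01 (j + 1, a, b')
      have := hz01 (j + 1, a', b')
      omega
    · have e1 := h' j c a a' b
      have := hz01 (j, c, a)
      have := hz01 (j, c, a')
      omega

lemma case_pair' (A T : Finset E) (hA : #A ≤ 2) (hT : #T ≤ 2)
    (h : ∀ (j : Fin 5) (c a a' b : Fin 3),
      ∑ e ∈ A, cyc j c a a' b e = ∑ e ∈ T, cyc j c a a' b e) : A = T := by
  set z : E → ℤ := fun e => (if e ∈ A then 1 else 0) - (if e ∈ T then 1 else 0) with hz
  have h' : ∀ (j : Fin 5) (c a a' b : Fin 3),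
      z (j + 1, a, b) - z (j + 1, a', b) - z (j, c, a) + z (j, c, a') = 0 := by
    intro j c a a' b
    have := h j c a a' b
    rw [sum_cyc, sum_cyc] at this
    simp only [hz]
    linarith
  have hs : ∀ X : Finset E, -2 ≤ ∑ e ∈ X, z e ∧ ∑ e ∈ X, z e ≤ 2 := by
    intro X
    simp only [hz]
    rw [Finset.sum_sub_distrib, Finset.sum_ite_mem, Finset.sum_ite_mem]
    simp only [Finset.sum_const, nsmul_eq_mul, mul_one]
    have h1 : #(X ∩ A) ≤ 2 := (card_le_card inter_subset_right).trans hA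
    have h2 : #(X ∩ T) ≤ 2 := (card_le_card inter_subset_right).trans hT
    omega
  have h0 : ∀ (j : Fin 5) (a a' b : Fin 3), z (j + 1, a, b) = z (j + 1, a', b) := by
    intro j a a' b
    have s1 := hs (star' j a)
    have s2 := hs (star' j a')
    rw [sum_star'] at s1 s2
    have e0 := h' j 0 a a' b
    have e1 := h' j 1 a a' b
    have e2 := h' j 2 a a' b
    have f0 := h' j 0 a a' 0
    have f1 := h' j 0 a a' 1
    have f2 := h' j 0 a a' 2
    omega
  have hc := block_const z h' h0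
  have hz0 : ∀ e, z e = 0 := by
    rintro ⟨i, a, b⟩
    have s1 := hs {(i, 0, 0), (i, 0, 1), (i, 0, 2)}
    rw [sum_insert (by simp), sum_insert (by simp), sum_singleton] at s1
    have := hc i a b
    have := hc i 0 1
    have := hc i 0 2
    omega
  ext e
  have := hz0 e
  simp only [hz] at this
  split_ifs at this with h1 h2 h2 <;> simp_all

lemma cyc_bd (j : Fin 5) (c a a' b : Fin 3) (e : E) :
    (-2 : ℝ) ≤ (cyc j c a a' b e : ℝ) ∧ (cyc j c a a' b e : ℝ) ≤ 2 := by
  have : -2 ≤ cyc j c a a' b e ∧ cyc j c a a' b e ≤ 2 := by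
    unfold cyc
    split_ifs <;> omega
  exact ⟨by exact_mod_cast this.1, by exact_mod_cast this.2⟩

/-- `G` is strongly equistable -/
theorem G_strong (T : Finset V) (hT0 : T.Nonempty)
    (hT : ¬ Maximal (fun s : Finset V => G.IsIndepSet (s : Set V)) T) (γ : ℝ) (hγ : γ ≤ 1) :
    ∃ φ : V → ℝ, (∀ v, 0 < φ v) ∧
      (∀ S, Maximal (fun s : Finset V => G.IsIndepSet (s : Set V)) S → ∑ v ∈ S, φ v = 1) ∧
      ∑ v ∈ T, φ v ≠ γ := by
  have hu : ∀ v, ∑ _e ∈ star v, (1 / 6 : ℝ) = 1 := by
    intro v; simp [card_star]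
  by_contra hcon
  have hall : ∀ y : E → ℝ, (∀ e, 0 < y e ∧ y e < 1 / 2) → (∀ v, ∑ e ∈ star v, y e = 1) →
      ∑ v ∈ T, extw y v = γ := by
    intro y hy0 hy
    by_contra h
    refine hcon ⟨extw y, ?_, extw_feas y hy, h⟩
    rintro (e | p)
    · exact (hy0 e).1
    · have h1 := (hy0 p.1.1).2
      have h2 := (hy0 p.1.2).2
      simp only [extw]
      linarith
  have h1 := hall _ (fun _ => by norm_num) hu
  rw [sum_extw] at h1
  simp only [sum_const, nsmul_eq_mul] at h1
  have hcard : #T.toLeft + 4 * #T.toRight ≤ 6 := by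
    have : (#T.toLeft : ℝ) + 4 * #T.toRight ≤ 6 := by linarith
    exact_mod_cast this
  have h2 : ∀ (j : Fin 5) (c a a' b : Fin 3), ∑ e ∈ T.toLeft, cyc j c a a' b e =
      ∑ p ∈ T.toRight, (cyc j c a a' b p.1.1 + cyc j c a a' b p.1.2) := by
    intro j c a a' b
    have hy : ∀ v, ∑ e ∈ star v, ((1 / 6 : ℝ) + (cyc j c a a' b e : ℝ) / 24) = 1 := by
      intro v
      rw [sum_add_distrib, hu, ← sum_div, ← Int.cast_sum, cyc_star]; simp
    have h3 := hall _ (fun e => by
      have := cyc_bd j c a a' b e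
      constructor <;> linarith [this.1, this.2]) hy
    rw [sum_extw, sum_add_distrib, ← sum_div _ (fun e => (cyc j c a a' b e : ℝ))] at h3
    have h4 : ∑ p ∈ T.toRight, (1 - ((1 / 6 : ℝ) + (cyc j c a a' b p.1.1 : ℝ) / 24)
          - (1 / 6 + (cyc j c a a' b p.1.2 : ℝ) / 24))
        = ∑ p ∈ T.toRight, ((1 : ℝ) - 1 / 6 - 1 / 6)
          - (∑ p ∈ T.toRight, ((cyc j c a a' b p.1.1 : ℝ) + (cyc j c a a' b p.1.2 : ℝ))) / 24 := by
      rw [sum_div, ← sum_sub_distrib]
      exact sum_congr rfl (fun p _ => by ring)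
    rw [h4] at h3
    simp only [sum_const, nsmul_eq_mul] at h3
    have : ∑ e ∈ T.toLeft, (cyc j c a a' b e : ℝ) =
        ∑ p ∈ T.toRight, ((cyc j c a a' b p.1.1 : ℝ) + (cyc j c a a' b p.1.2 : ℝ)) := by
      linarith
    exact_mod_cast this
  apply hT
  have hB : #T.toRight = 0 ∨ #T.toRight = 1 := by omega
  rcases hB with hB | hB
  · have hB' := card_eq_zero.1 hB
    have hL : T.toLeft.Nonempty := by
      obtain ⟨e | p, hx⟩ := hT0
      · exact ⟨e, mem_toLeft.2 hx⟩
      · exact absurd (mem_toRight.2 hx) (by rw [hB']; exact notMem_empty _)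
    obtain ⟨v, hv⟩ := case_star' T.toLeft hL (by omega) (by
      intro j c a a' b
      rw [h2, hB']; simp)
    have : T = St v := by
      rw [← toLeft_disjSum_toRight (u := T), hv, hB']; rfl
    rw [this]; exact St_max v
  · obtain ⟨p, hp⟩ := card_eq_one.1 hB
    have hA := case_pair' T.toLeft {p.1.1, p.1.2} (by omega) (card_pair p.2.1).le (by
      intro j c a a' b
      rw [h2, hp, sum_singleton, sum_pair p.2.1])
    have : T = Q p := by
      rw [← toLeft_disjSum_toRight (u := T), hA, hp]; rfl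
    rw [this]; exact Q_max p

end Pool.Agent.Work.MP_a8adbc_co
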